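import Pool.Agent.L7h10.AB.Stm

/-!
# Project AB, part FIX
-/

set_option autoImplicit false

namespace Pool.Agent.L7h84.AB

open Polynomial

theorem s_FIX : Pool.Agent.L7h10.AB.S_FIX := by
  intro K _ _ x hx
  classical
  haveI := Fintype.ofFinite K
  rw [Nat.card_eq_fintype_card] at hx
  have hsp : (X ^ Fintype.card K - X : K[X]) = ∏ a : K, (X - C a) := by
    have h1 : (X ^ Fintype.card K - X : K[X]).roots = Finset.univ.val :=
      FiniteField.roots_X_pow_card_sub_X K
    have h2 : (X ^ Fintype.card K - X : K[X]).Monic :=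
      monic_X_pow_sub (by
        rw [degree_X]
        exact_mod_cast Fintype.one_lt_card)
    have h3 : (X ^ Fintype.card K - X : K[X]).natDegree = Fintype.card K :=
      FiniteField.X_pow_card_sub_X_natDegree_eq K Fintype.one_lt_card
    have h4 := prod_multiset_X_sub_C_of_monic_of_roots_card_eq h2 (by
      rw [h1, h3]; rfl)
    rw [h1] at h4
    exact h4.symm
  have h5 := congrArg (aeval x) hsp
  rw [map_sub, map_pow, aeval_X, hx, sub_self, map_prod] at h5
  obtain ⟨a, -, ha⟩ := Finset.prod_eq_zero_iff.1 h5.symm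
  refine ⟨a, ?_⟩
  rw [map_sub, aeval_X, aeval_C] at ha
  exact (sub_eq_zero.1 ha).symm

end Pool.Agent.L7h84.AB
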